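import Pool.Agent.ABO.Main

/-!
# Recognising graphs with Type-A or Type-B vertex orders is NP-complete
-/

namespace Pool.Agent.Results.MP_e5cbc1_lc.OrdersNPComplete

open Pool.Agent.TM2Lib

/-- A decision problem: its instances, a coding of the instances by bit strings, and the set of
yes-instances.  Only codes of instances are inputs. -/
structure DecProb where
  /-- instances -/
  Inst : Type
  /-- coding of the instances -/
  code : Inst → List Bool
  /-- yes-instances -/
  yes : Inst → Prop

/-- The bit string coding an object (see `Enc`: numbers are coded by their binary digits, lists by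
right-nested pairs, and the resulting binary tree is written in prefix code). -/
def code {α : Type} [Enc α] (a : α) : List Bool := D.encD (enc a)

/-- `f` is computable in polynomial time, inputs being coded by `ca` and outputs by `cb`. -/
def PolyTime {α β : Type} (ca : α → List Bool) (cb : β → List Bool) (f : α → β) : Prop :=
  Nonempty (Turing.TM2ComputableInPolyTime ca cb f)

/-- `Q` can be decided in polynomial time. -/
def InP (Q : DecProb) : Prop :=
  ∃ f : Q.Inst → Bool, PolyTime Q.code (fun b => [b]) f ∧ ∀ x, f x = true ↔ Q.yes x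

/-- `Q` is in NP: it has polynomial-time verifiable certificates of polynomial length. -/
def InNP (Q : DecProb) : Prop :=
  ∃ (V : Q.Inst × List Bool → Bool) (p : Polynomial ℕ),
    PolyTime (fun z : Q.Inst × List Bool => code (Q.code z.1, z.2)) (fun b => [b]) V ∧
    ∀ x, Q.yes x ↔ ∃ y : List Bool, y.length ≤ p.eval (Q.code x).length ∧ V (x, y) = true

/-- A language as a decision problem: every string is an instance. -/
def Lang (L : Set (List Bool)) : DecProb := ⟨List Bool, id, fun x => x ∈ L⟩

/-- `P = NP`: every language in NP is in P. -/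
def PEqNP : Prop := ∀ L : Set (List Bool), InNP (Lang L) → InP (Lang L)

/-- Polynomial-time many-one reducibility. -/
def Reduces (Q R : DecProb) : Prop :=
  ∃ f : Q.Inst → R.Inst, PolyTime Q.code R.code f ∧ ∀ x, Q.yes x ↔ R.yes (f x)

/-- Every language in NP reduces to `R`. -/
def NPHard (R : DecProb) : Prop := ∀ L : Set (List Bool), InNP (Lang L) → Reduces (Lang L) R

/-- NP-completeness. -/
def NPComplete (R : DecProb) : Prop := InNP R ∧ NPHard R

/-- Finite simple graphs with vertex set `{0, …, n-1}`. -/
abbrev Graph : Type := Σ n : ℕ, SimpleGraph (Fin n)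

open Classical in
/-- The adjacency lists of a graph. -/
noncomputable def adjLists (G : Graph) : List (List ℕ) :=
  (List.finRange G.1).map fun v =>
    ((List.finRange G.1).filter fun u => decide (G.2.Adj v u)).map Fin.val

/-- The number of neighbours of `v` placed before `v`; `σ v` is the position of `v`. -/
noncomputable def dminus {n : ℕ} (G : SimpleGraph (Fin n)) (σ : Equiv.Perm (Fin n))
    (v : Fin n) : ℕ := {u | G.Adj v u ∧ σ u < σ v}.ncard

/-- The number of neighbours of `v` placed after `v`. -/
noncomputable def dplus {n : ℕ} (G : SimpleGraph (Fin n)) (σ : Equiv.Perm (Fin n))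
    (v : Fin n) : ℕ := {u | G.Adj v u ∧ σ v < σ u}.ncard

/-- Type-A orders. -/
def IsTypeA {n : ℕ} (G : SimpleGraph (Fin n)) (σ : Equiv.Perm (Fin n)) : Prop :=
  ∀ v, Odd (dminus G σ v) ∨ dminus G σ v = 0

/-- Type-B orders. -/
def IsTypeB {n : ℕ} (G : SimpleGraph (Fin n)) (σ : Equiv.Perm (Fin n)) : Prop :=
  ∀ v, (Odd (dminus G σ v) ∨ dminus G σ v = 0) ∨ (Even (dminus G σ v) ∧ dplus G σ v = 0)

/-- Given a finite graph by its adjacency lists, does it admit a Type-A order? -/
noncomputable def TypeA : DecProb where
  Inst := Graph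
  code := fun G => code (adjLists G)
  yes := fun G => ∃ σ, IsTypeA G.2 σ

/-- Given a finite graph by its adjacency lists, does it admit a Type-B order? -/
noncomputable def TypeB : DecProb where
  Inst := Graph
  code := fun G => code (adjLists G)
  yes := fun G => ∃ σ, IsTypeB G.2 σ

theorem pairCode_eq (p : List Bool × List Bool) : code p = NPC.pairCode p := by
  obtain ⟨s, y⟩ := p
  show D.encD (D.cons (enc s) (enc y)) = D.encD (D.cons (D.ofBits s) (D.ofBits y))
  rw [NPC.enc_eq_ofBits, NPC.enc_eq_ofBits]

theorem inNP_iff (Q : DecProb) : InNP Q ↔ NPC.InNP ⟨Q.Inst, Q.code, Q.yes⟩ := by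
  unfold InNP NPC.InNP
  simp only [pairCode_eq]
  exact Iff.rfl

theorem inP_iff (Q : DecProb) : InP Q ↔ NPC.InP ⟨Q.Inst, Q.code, Q.yes⟩ := Iff.rfl

theorem pEqNP_iff : PEqNP ↔ ABO.PEqNP := by
  unfold PEqNP ABO.PEqNP
  refine forall_congr' fun L => ?_
  exact imp_congr (inNP_iff _) (inP_iff _)

theorem npHard_of {R : DecProb} (h : NPC.NPHard ⟨R.Inst, R.code, R.yes⟩) : NPHard R :=
  fun L hL => h L ((inNP_iff _).1 hL)

/-- **Main theorem.** Both recognition problems are NP-complete; each of them is solvable in
polynomial time if and only if `P = NP`. -/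
theorem result :
    NPComplete TypeA ∧ NPComplete TypeB ∧ (InP TypeA ↔ PEqNP) ∧ (InP TypeB ↔ PEqNP) :=
  ⟨⟨(inNP_iff _).2 ABO.inNP_A, npHard_of ABO.hard_A⟩,
    ⟨(inNP_iff _).2 ABO.inNP_B, npHard_of ABO.hard_B⟩,
    (inP_iff _).trans (ABO.inP_A_iff.trans pEqNP_iff.symm),
    (inP_iff _).trans (ABO.inP_B_iff.trans pEqNP_iff.symm)⟩

end Pool.Agent.Results.MP_e5cbc1_lc.OrdersNPComplete
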